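import Pool.Agent.V7H41.CC.Spec

/-!
# Project CC, piece PERM: the number of orders for which a given partition is separated
-/

set_option autoImplicit false
set_option linter.all false

open Finset
open scoped Classical

namespace Pool.Agent.V7H54.CC

open Pool.Agent.V7H41.CC

variable {n : ℕ}

theorem exists_order {ι : Type} [Fintype ι] (key : ι → ℕ) (hkey : Function.Injective key) :
    ∃ e : ι ≃ Fin (Fintype.card ι), ∀ i j, e i < e j → key i < key j := by
  letI : LinearOrder ι := LinearOrder.lift' key hkey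
  let e := Fintype.orderIsoFinOfCardEq ι rfl
  refine ⟨e.symm.toEquiv, fun i j h => ?_⟩
  have h2 : i < j := e.symm.lt_iff_lt.1 h
  exact h2

/-- the union of the nontrivial classes -/
noncomputable def UU (P : Finpartition (univ : Finset (Fin n))) : Finset (Fin n) :=
  univ.filter (fun x => P.part x ∈ nt P)

/-- the orders for which the nontrivial classes are separated in the order given by `ee` -/
noncomputable def Gs (P : Finpartition (univ : Finset (Fin n))) (ee : Finset (Fin n) → ℕ) :
    Finset (Equiv.Perm (Fin n)) :=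
  univ.filter (fun σ => ∀ A ∈ nt P, ∀ B ∈ nt P, ee A < ee B → ∀ a ∈ A, ∀ b ∈ B, σ a < σ b)

theorem card_K (P : Finpartition (univ : Finset (Fin n))) :
    (univ.filter (fun κ : Equiv.Perm (Fin n) => ∀ x, P.part (κ x) = P.part x)).card =
      ∏ A ∈ nt P, A.card.factorial := by
  have h1 : (univ.filter (fun κ : Equiv.Perm (Fin n) => ∀ x, P.part (κ x) = P.part x)).card =
      Fintype.card {g : Equiv.Perm (Fin n) // P.part ∘ g = P.part} := by
    rw [Fintype.card_subtype]
    congr 1
    ext κ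
    simp only [mem_filter, mem_univ, true_and, funext_iff, Function.comp]
  rw [h1, DomMulAct.stabilizer_card']
  have h2 : (univ : Finset (Fin n)).image P.part = P.parts := by
    ext A
    rw [mem_image]
    constructor
    · rintro ⟨x, -, rfl⟩
      exact P.part_mem.2 (mem_univ x)
    · intro hA
      obtain ⟨x, hx⟩ := P.nonempty_of_mem_parts hA
      exact ⟨x, mem_univ x, P.part_eq_of_mem hA hx⟩
  rw [h2]
  have h3 : ∀ A ∈ P.parts, (Fintype.card {a // P.part a = A}).factorial = A.card.factorial := by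
    intro A hA
    congr 1
    rw [Fintype.card_subtype]
    congr 1
    ext x
    simp only [mem_filter, mem_univ, true_and]
    exact P.part_eq_iff_mem hA
  rw [prod_congr rfl h3]
  symm
  apply prod_subset (filter_subset _ _)
  intro A hA hA2
  have h4 : A.card ≤ 1 := by
    by_contra h
    exact hA2 (mem_filter.2 ⟨hA, by omega⟩)
  interval_cases h : A.card <;> rfl

theorem card_PU (U : Finset (Fin n)) :
    (univ.filter (fun τ : Equiv.Perm (Fin n) => ∀ x, x ∉ U → τ x = x)).card =
      U.card.factorial := by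
  have h1 := Fintype.card_congr (Equiv.Perm.subtypeEquivSubtypePerm (fun x : Fin n => x ∈ U))
  rw [Fintype.card_perm, Fintype.card_coe] at h1
  rw [h1, Fintype.card_subtype]

theorem card_UU (P : Finpartition (univ : Finset (Fin n))) :
    (UU P).card = ∑ A ∈ nt P, A.card := by
  have h1 : UU P = (nt P).biUnion id := by
    ext x
    unfold UU
    simp only [mem_filter, mem_univ, true_and, mem_biUnion, id]
    constructor
    · intro h
      exact ⟨P.part x, h, P.mem_part (mem_univ x)⟩
    · rintro ⟨A, hA, hx⟩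
      rw [P.part_eq_of_mem (mem_filter.1 hA).1 hx]
      exact hA
  rw [h1, card_biUnion]
  · rfl
  · intro A hA B hB hAB
    exact P.disjoint (mem_filter.1 hA).1 (mem_filter.1 hB).1 hAB

theorem pres {P : Finpartition (univ : Finset (Fin n))} {ee : Finset (Fin n) → ℕ}
    (hee : Set.InjOn ee (nt P : Set (Finset (Fin n)))) {σ κ : Equiv.Perm (Fin n)}
    (h0 : σ ∈ Gs P ee) (h1 : σ * κ ∈ Gs P ee) (hκ : ∀ x, x ∉ UU P → κ x = x) (x : Fin n) :
    P.part (κ x) = P.part x := by
  have hmem : ∀ x, x ∈ UU P ↔ P.part x ∈ nt P := fun x => by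
    unfold UU
    simp
  have hU : ∀ x, κ x ∈ UU P ↔ x ∈ UU P := by
    intro x
    constructor
    · intro h
      by_contra h2
      rw [hκ x h2] at h
      exact h2 h
    · intro h
      by_contra h2
      have h3 := hκ _ h2
      have h4 := κ.injective h3
      rw [h4] at h2
      exact h2 h
  have g0 : ∀ a b, a ∈ UU P → b ∈ UU P → ee (P.part a) < ee (P.part b) → σ a < σ b := by
    intro a b ha hb hab
    exact (mem_filter.1 h0).2 _ ((hmem a).1 ha) _ ((hmem b).1 hb) hab a (P.mem_part (mem_univ a)) b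
      (P.mem_part (mem_univ b))
  have g1 : ∀ a b, a ∈ UU P → b ∈ UU P → ee (P.part a) < ee (P.part b) → σ (κ a) < σ (κ b) := by
    intro a b ha hb hab
    exact (mem_filter.1 h1).2 _ ((hmem a).1 ha) _ ((hmem b).1 hb) hab a (P.mem_part (mem_univ a)) b
      (P.mem_part (mem_univ b))
  obtain ⟨D, hD⟩ : ∃ D : ℕ → Finset (Fin n), D = fun c =>
    univ.filter (fun y => y ∈ UU P ∧ ee (P.part y) < c) := ⟨_, rfl⟩
  have hmD : ∀ c y, y ∈ D c ↔ y ∈ UU P ∧ ee (P.part y) < c := by
    intro c y
    rw [hD]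
    simp
  have key : ∀ c, (D c).map κ.toEmbedding = D c := by
    intro c
    have hcard : ((D c).map κ.toEmbedding).card = (D c).card := card_map _
    by_contra hne
    have h2 : ¬ D c ⊆ (D c).map κ.toEmbedding := fun h =>
      hne (eq_of_subset_of_card_le h hcard.le).symm
    have h3 : ¬ (D c).map κ.toEmbedding ⊆ D c := fun h =>
      hne (eq_of_subset_of_card_le h hcard.ge)
    rw [not_subset] at h2 h3
    obtain ⟨y, hy, hy'⟩ := h2
    obtain ⟨z, hz', hz⟩ := h3
    rw [mem_map] at hz'
    obtain ⟨z', hz1, hz2⟩ := hz'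
    have hz2' : κ z' = z := hz2
    obtain ⟨y', hy2⟩ := κ.surjective y
    have hyU := ((hmD c y).1 hy).1
    have hy'U : y' ∈ UU P := (hU y').1 (by rw [hy2]; exact hyU)
    have hy3 : c ≤ ee (P.part y') := by
      by_contra h
      apply hy'
      rw [mem_map]
      exact ⟨y', (hmD c y').2 ⟨hy'U, by omega⟩, hy2⟩
    have hz'U := ((hmD c z').1 hz1).1
    have hzU : z ∈ UU P := by
      rw [← hz2']
      exact (hU z').2 hz'U
    have hz3 : c ≤ ee (P.part z) := by
      by_contra h
      exact hz ((hmD c z).2 ⟨hzU, by omega⟩)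
    have h4 := g0 y z hyU hzU (lt_of_lt_of_le ((hmD c y).1 hy).2 hz3)
    have h5 := g1 z' y' hz'U hy'U (lt_of_lt_of_le ((hmD c z').1 hz1).2 hy3)
    rw [hz2', hy2] at h5
    exact lt_asymm h4 h5
  by_cases hx : x ∈ UU P
  · have k1 : ∀ c, ee (P.part x) < c ↔ ee (P.part (κ x)) < c := by
      intro c
      constructor
      · intro h
        have h2 : κ x ∈ (D c).map κ.toEmbedding := mem_map.2 ⟨x, (hmD c x).2 ⟨hx, h⟩, rfl⟩
        rw [key] at h2
        exact ((hmD c _).1 h2).2
      · intro h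
        have h2 : κ x ∈ D c := (hmD c _).2 ⟨(hU x).2 hx, h⟩
        rw [← key, mem_map] at h2
        obtain ⟨x', hx1, hx2⟩ := h2
        have hx3 : x' = x := κ.injective hx2
        rw [hx3] at hx1
        exact ((hmD c _).1 hx1).2
    apply hee ((hmem _).1 ((hU x).2 hx)) ((hmem _).1 hx)
    have a1 := (k1 (ee (P.part x) + 1)).1 (by omega)
    have a2 := (k1 (ee (P.part (κ x)) + 1)).2 (by omega)
    omega
  · rw [hκ x hx]

theorem card_Gs (P : Finpartition (univ : Finset (Fin n))) (ee : Finset (Fin n) → ℕ)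
    (hee : Set.InjOn ee (nt P : Set (Finset (Fin n)))) :
    (Gs P ee).card * (∑ A ∈ nt P, A.card).factorial ≤
      n.factorial * ∏ A ∈ nt P, A.card.factorial := by
  rw [← card_UU, ← card_PU, ← card_K, ← card_product]
  obtain ⟨PU, hPU⟩ : ∃ PU : Finset (Equiv.Perm (Fin n)), PU =
    univ.filter (fun τ : Equiv.Perm (Fin n) => ∀ x, x ∉ UU P → τ x = x) := ⟨_, rfl⟩
  obtain ⟨KK, hKK⟩ : ∃ KK : Finset (Equiv.Perm (Fin n)), KK =
    univ.filter (fun κ : Equiv.Perm (Fin n) => ∀ x, P.part (κ x) = P.part x) := ⟨_, rfl⟩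
  have e1 : (univ.filter (fun τ : Equiv.Perm (Fin n) => ∀ x, x ∉ UU P → τ x = x)) = PU := hPU.symm
  have e2 : (univ.filter (fun κ : Equiv.Perm (Fin n) => ∀ x, P.part (κ x) = P.part x)) = KK :=
    hKK.symm
  rw [e1, e2]
  have h := card_le_mul_card_image_of_maps_to (s := Gs P ee ×ˢ PU)
    (t := (univ : Finset (Equiv.Perm (Fin n)))) (f := fun p => p.1 * p.2⁻¹)
    (fun _ _ => mem_univ _) KK.card ?_
  · rw [card_univ, Fintype.card_perm, Fintype.card_fin, mul_comm] at h
    exact h
  · intro ρ _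
    rcases ((Gs P ee ×ˢ PU).filter (fun p => p.1 * p.2⁻¹ = ρ)).eq_empty_or_nonempty with
      he | ⟨p0, hp0⟩
    · rw [he]
      simp
    · rw [mem_filter, mem_product] at hp0
      obtain ⟨⟨hp1, hp2⟩, hp3⟩ := hp0
      rw [hPU, mem_filter] at hp2
      refine card_le_card_of_injOn (fun p => p0.2⁻¹ * p.2) ?_ ?_
      · intro p hp
        rw [Finset.mem_coe, mem_filter, mem_product] at hp
        obtain ⟨⟨hq1, hq2⟩, hq3⟩ := hp
        rw [hPU, mem_filter] at hq2
        have h5 : p0.1 * (p0.2⁻¹ * p.2) = p.1 := by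
          rw [← mul_assoc, hp3, ← hq3]
          group
        rw [Finset.mem_coe, hKK, mem_filter]
        refine ⟨mem_univ _, fun x => pres hee hp1 (by rw [h5]; exact hq1) (fun y hy => ?_) x⟩
        rw [Equiv.Perm.mul_apply, hq2.2 y hy]
        rw [Equiv.Perm.inv_eq_iff_eq]
        exact (hp2.2 y hy).symm
      · intro p hp q hq hpq
        rw [Finset.mem_coe, mem_filter] at hp hq
        have h5 : p.2 = q.2 := mul_left_cancel hpq
        have h6 : p.1 = q.1 := by
          have h7 : p.1 * p.2⁻¹ = q.1 * q.2⁻¹ := hp.2.trans hq.2.symm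
          rw [h5] at h7
          exact mul_right_cancel h7
        exact Prod.ext h6 h5

theorem t_PERM : S_PERM := by
  intro n P
  have hG : {σ : Equiv.Perm (Fin n) | SepP (fun i => (σ i : ℕ)) P}.ncard =
      (univ.filter (fun σ : Equiv.Perm (Fin n) => SepP (fun i => (σ i : ℕ)) P)).card := by
    rw [← Set.ncard_coe_finset]
    congr 1
    ext σ
    simp
  rw [hG]
  obtain ⟨ext, hext⟩ : ∃ ext : ({A // A ∈ nt P} ≃ Fin (Fintype.card {A // A ∈ nt P})) →
      Finset (Fin n) → ℕ, ext = fun e A => if h : A ∈ nt P then (e ⟨A, h⟩ : ℕ) else 0 := ⟨_, rfl⟩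
  have hext' : ∀ e A (h : A ∈ nt P), ext e A = (e ⟨A, h⟩ : ℕ) := by
    intro e A h
    rw [hext]
    simp only
    rw [dif_pos h]
  have hinj : ∀ e, Set.InjOn (ext e) (nt P : Set (Finset (Fin n))) := by
    intro e A hA B hB hAB
    rw [hext' e A hA, hext' e B hB] at hAB
    have h1 := e.injective (Fin.ext hAB)
    exact congrArg Subtype.val h1
  have hsub : univ.filter (fun σ : Equiv.Perm (Fin n) => SepP (fun i => (σ i : ℕ)) P) ⊆
      (univ : Finset ({A // A ∈ nt P} ≃ Fin (Fintype.card {A // A ∈ nt P}))).biUnion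
        (fun e => Gs P (ext e)) := by
    intro σ hσ
    rw [mem_filter] at hσ
    have hs := hσ.2
    have hne : ∀ A : {A // A ∈ nt P}, ∃ a, a ∈ A.1 := fun A =>
      P.nonempty_of_mem_parts (mem_filter.1 A.2).1
    choose rep hrep using hne
    have hk : Function.Injective (fun A : {A // A ∈ nt P} => ((σ (rep A) : Fin n) : ℕ)) := by
      intro A B hAB
      have h1 : rep A = rep B := σ.injective (Fin.ext hAB)
      apply Subtype.ext
      exact P.eq_of_mem_parts (mem_filter.1 A.2).1 (mem_filter.1 B.2).1 (hrep A)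
        (by rw [h1]; exact hrep B)
    obtain ⟨e, he⟩ := exists_order _ hk
    rw [mem_biUnion]
    refine ⟨e, mem_univ _, ?_⟩
    unfold Gs
    rw [mem_filter]
    refine ⟨mem_univ _, fun A hA B hB hAB a ha b hb => ?_⟩
    rw [hext' e A hA, hext' e B hB] at hAB
    have h2 := he ⟨A, hA⟩ ⟨B, hB⟩ hAB
    have hne : A ≠ B := by
      rintro rfl
      exact lt_irrefl _ h2
    rcases hs A (mem_filter.1 hA).1 B (mem_filter.1 hB).1 hne (mem_filter.1 hA).2
      (mem_filter.1 hB).2 with h3 | h3
    · exact h3 a ha b hb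
    · have h4 := h3 _ (hrep ⟨A, hA⟩) _ (hrep ⟨B, hB⟩)
      simp only at h4
      exact absurd h2 (lt_asymm h4)
  have hcard := (card_le_card hsub).trans card_biUnion_le
  have hE : Fintype.card ({A // A ∈ nt P} ≃ Fin (Fintype.card {A // A ∈ nt P})) =
      (nt P).card.factorial := by
    rw [Fintype.card_equiv (Fintype.equivFin _), Fintype.card_coe]
  calc _ ≤ (∑ e : {A // A ∈ nt P} ≃ Fin (Fintype.card {A // A ∈ nt P}), (Gs P (ext e)).card) *
        (∑ A ∈ nt P, A.card).factorial := Nat.mul_le_mul_right _ hcard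
    _ = ∑ e : {A // A ∈ nt P} ≃ Fin (Fintype.card {A // A ∈ nt P}), (Gs P (ext e)).card *
        (∑ A ∈ nt P, A.card).factorial := by rw [Finset.sum_mul]
    _ ≤ ∑ _e : {A // A ∈ nt P} ≃ Fin (Fintype.card {A // A ∈ nt P}), n.factorial *
        ∏ A ∈ nt P, A.card.factorial := sum_le_sum fun e _ => card_Gs P (ext e) (hinj e)
    _ = _ := by
      rw [sum_const, card_univ, hE, smul_eq_mul]
      ring

end Pool.Agent.V7H54.CC
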